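import Pool.Agent.H8.VR.Targets

/-!
# Two-variable logic over context-free classes: transport of generated structures
-/

set_option autoImplicit false

namespace Pool.Agent.H65.VR

open Pool.Agent.H8.VR Classical

/-- extension of a colouring along an injective map -/
theorem ext_col {A B Q : Type} (f : A → B) (X : Set A) (hf : Set.InjOn f X) (c : A → Q)
    (c' : B → Q) : ∃ d : B → Q, ∀ a ∈ X, d (f a) = c a := by
  refine ⟨fun b => if h : ∃ a ∈ X, f a = b then c h.choose else c' b, fun a ha => ?_⟩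
  have hex : ∃ x ∈ X, f x = f a := ⟨a, ha, rfl⟩
  have h1 := hex.choose_spec
  simp only
  rw [dif_pos hex, hf h1.1 ha h1.2]

theorem pf_GM : T_GM := by
  intro N Q L T O A B S lam th s X c hG
  induction hG with
  | pt s a c h =>
    intro f _ lam' th' c' h1 _ h3
    rw [Set.image_singleton]
    refine Sg.Gen.pt s (f a) c' ?_
    rw [h3 a rfl, h1 a rfl]
    exact h
  | op o X Y c c₁ c₂ _ _ hd hg ha hX hY ih1 ih2 =>
    intro f hf lam' th' c' h1 h2 h3
    have hfX : Set.InjOn f X := hf.mono Set.subset_union_left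
    have hfY : Set.InjOn f Y := hf.mono Set.subset_union_right
    obtain ⟨d₁, hd₁⟩ := ext_col f X hfX c₁ c'
    obtain ⟨d₂, hd₂⟩ := ext_col f Y hfY c₂ c'
    rw [Set.image_union]
    refine Sg.Gen.op o (f '' X) (f '' Y) c' d₁ d₂
      (ih1 f hfX lam' th' d₁ (fun a h => h1 a (Or.inl h))
        (fun a h b h' hab => h2 a (Or.inl h) b (Or.inl h') hab) hd₁)
      (ih2 f hfY lam' th' d₂ (fun a h => h1 a (Or.inr h))
        (fun a h b h' hab => h2 a (Or.inr h) b (Or.inr h') hab) hd₂) ?_ ?_ ?_ ?_ ?_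
    · rw [Set.disjoint_left]
      rintro _ ⟨a, ha1, rfl⟩ ⟨b, hb1, hb2⟩
      have := hf (Or.inr hb1) (Or.inl ha1) hb2
      subst this
      exact Set.disjoint_left.1 hd ha1 hb1
    · rw [Set.ncard_image_of_injOn hfX, Set.ncard_image_of_injOn hfY]
      exact hg
    · rintro _ ⟨a, ha1, rfl⟩ _ ⟨b, hb1, rfl⟩
      rw [hd₁ a ha1, hd₂ b hb1, h2 a (Or.inl ha1) b (Or.inr hb1) ?_]
      · exact ha a ha1 b hb1
      · rintro rfl
        exact Set.disjoint_left.1 hd ha1 hb1
    · rintro _ ⟨a, ha1, rfl⟩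
      rw [h3 a (Or.inl ha1), hd₁ a ha1]
      exact hX a ha1
    · rintro _ ⟨b, hb1, rfl⟩
      rw [h3 b (Or.inr hb1), hd₂ b hb1]
      exact hY b hb1

end Pool.Agent.H65.VR
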